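import Pool.Agent.N89.HG.Stm

/-!
Project HG (helper89): the existence of the resolvent of a group (helper441).
-/

set_option autoImplicit false

namespace Pool.Agent.N441.HG

open Polynomial NumberField Pool.Agent.N89.HX Pool.Agent.N89.HG

/-- a homomorphism to an algebraically closed field extends to an integral extension -/
theorem ext_ex (A B M : Type) [CommRing A] [CommRing B] [IsDomain B] [Algebra A B]
    [Algebra.IsIntegral A B] (hinj : Function.Injective (algebraMap A B)) [Field M] [IsAlgClosed M]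
    (θ : A →+* M) : ∃ Ψ : B →+* M, ∀ a, Ψ (algebraMap A B a) = θ a := by
  obtain ⟨P, hP⟩ : ∃ P : Ideal A, P = RingHom.ker θ := ⟨_, rfl⟩
  have hPp : P.IsPrime := by
    rw [hP]
    exact RingHom.ker_isPrime θ
  obtain ⟨Q, hQ, hQP⟩ := Ideal.exists_ideal_over_prime_of_isIntegral_of_isDomain (S := B) P (by
    rw [(RingHom.injective_iff_ker_eq_bot _).1 hinj]
    exact bot_le)
  have hlo : Q.LiesOver P := ⟨hQP.symm⟩
  let θ' : A ⧸ P →+* M := Ideal.Quotient.lift P θ (fun a ha => by rw [hP] at ha; exact ha)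
  have hθ' : Function.Injective θ' := by
    rw [injective_iff_map_eq_zero]
    intro a ha
    obtain ⟨a, rfl⟩ := Ideal.Quotient.mk_surjective a
    have ha' : θ a = 0 := ha
    rw [Ideal.Quotient.eq_zero_iff_mem, hP]
    exact ha'
  let : Algebra (A ⧸ P) M := θ'.toAlgebra
  have h1 : Module.IsTorsionFree (A ⧸ P) M := by
    rw [Module.isTorsionFree_iff_algebraMap_injective]
    exact hθ'
  have h4 : Module.IsTorsionFree (A ⧸ P) (B ⧸ Q) := by
    rw [Module.isTorsionFree_iff_algebraMap_injective]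
    exact FaithfulSMul.algebraMap_injective _ _
  have h2 : Algebra.IsIntegral (A ⧸ P) (B ⧸ Q) := inferInstance
  have h3 : Algebra.IsAlgebraic (A ⧸ P) (B ⧸ Q) := inferInstance
  let Ψ' : B ⧸ Q →ₐ[A ⧸ P] M := IsAlgClosed.lift
  refine ⟨Ψ'.toRingHom.comp (Ideal.Quotient.mk Q), fun a => ?_⟩
  show Ψ' (algebraMap (A ⧸ P) (B ⧸ Q) (Ideal.Quotient.mk P a)) = θ a
  rw [Ψ'.commutes]
  rfl

theorem icl (k : ℕ) (R : Type) [CommRing R] [IsDomain R] [IsIntegrallyClosed R] :
    IsIntegrallyClosed (MvPolynomial (Fin k) R) := by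
  induction k with
  | zero => exact IsIntegrallyClosed.of_equiv (MvPolynomial.isEmptyRingEquiv R (Fin 0)).symm
  | succ k ih => exact IsIntegrallyClosed.of_equiv (MvPolynomial.finSuccEquiv R k).symm.toRingEquiv

theorem fixed_ex (A : Type) [CommRing A] [IsDomain A] [IsIntegrallyClosed A] [CharZero A]
    (z : AlgebraicClosure (FractionRing A)) (hz : IsIntegral A z)
    (h : ∀ τ : AlgebraicClosure (FractionRing A) ≃ₐ[FractionRing A]
      AlgebraicClosure (FractionRing A), τ z = z) :
    ∃ a : A, algebraMap A (AlgebraicClosure (FractionRing A)) a = z := by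
  have hc : CharZero (FractionRing A) := inferInstance
  have h1 : z ∈ (⊥ : IntermediateField (FractionRing A) (AlgebraicClosure (FractionRing A))) := by
    rw [InfiniteGalois.mem_bot_iff_fixed]
    exact h
  obtain ⟨y, hy⟩ := IntermediateField.mem_bot.1 h1
  have h2 : IsIntegral A y := by
    rw [← hy] at hz
    exact (isIntegral_algebraMap_iff (algebraMap (FractionRing A)
      (AlgebraicClosure (FractionRing A))).injective).1 hz
  obtain ⟨a, ha⟩ := IsIntegrallyClosed.isIntegral_iff.1 h2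
  refine ⟨a, ?_⟩
  rw [← hy, ← ha]
  exact (IsScalarTower.algebraMap_apply A (FractionRing A)
    (AlgebraicClosure (FractionRing A)) a)

theorem mono_map {A B : Type} [CommRing A] [CommRing B] (φ : A →+* B) {e : ℕ}
    (f : Fin (e + 1) → A) : (mono f).map φ = mono (fun i => φ (f i)) := by
  unfold mono
  rw [Polynomial.map_add, Polynomial.map_pow, map_X, Polynomial.map_sum]
  congr 1
  refine Finset.sum_congr rfl fun i _ => ?_
  rw [Polynomial.map_mul, map_C, Polynomial.map_pow, map_X, map_mul, map_pow]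

theorem pol_map {A B : Type} [CommRing A] [CommRing B] (φ : A →+* B) {e : ℕ}
    (f : Fin (e + 1) → A) : (pol f).map φ = pol (fun i => φ (f i)) := by
  unfold pol
  rw [Polynomial.map_sum]
  refine Finset.sum_congr rfl fun i _ => ?_
  rw [Polynomial.map_mul, map_C, Polynomial.map_pow, map_X]

theorem mono_of_pol {M : Type} [Field M] {e : ℕ} (f : Fin (e + 1) → M)
    (x : Fin e → M) (h0 : f (Fin.last e) ≠ 0)
    (h : pol f = C (f (Fin.last e)) * ∏ i, (X - C (x i))) :
    mono f = ∏ i, (X - C (f (Fin.last e) * x i)) := by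
  rcases Nat.eq_zero_or_pos e with he | he
  · subst he
    simp [mono]
  obtain ⟨a, ha⟩ : ∃ a, a = f (Fin.last e) := ⟨_, rfl⟩
  rw [← ha] at h0 h ⊢
  have h1 : (mono f).comp (C a * X) = C (a ^ (e - 1)) * pol f := by
    unfold mono pol
    rw [Fin.sum_univ_castSucc, ← ha, add_comp, pow_comp, X_comp, mul_pow, ← C_pow, Fin.val_last,
      Polynomial.sum_comp, mul_add, Finset.mul_sum, add_comm]
    congr 1
    · refine Finset.sum_congr rfl fun i _ => ?_
      rw [mul_comp, C_comp, pow_comp, X_comp, mul_pow, ← C_pow, Fin.val_castSucc, ← mul_assoc,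
        ← mul_assoc, ← C_mul, ← C_mul]
      congr 2
      have h2 : a ^ (e - 1) = a ^ (e - 1 - (i : ℕ)) * a ^ (i : ℕ) := by
        rw [← pow_add]
        congr 1
        have := i.2
        omega
      rw [h2]
      ring
    · rw [← mul_assoc, ← C_mul, ← pow_succ]
      congr 3
      omega
  have h2 : (∏ i, (X - C (a * x i))).comp (C a * X) = C (a ^ e) * ∏ i, (X - C (x i)) := by
    rw [prod_comp]
    have e1 : ∀ i, (X - C (a * x i)).comp (C a * X) = C a * (X - C (x i)) := by
      intro i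
      rw [sub_comp, X_comp, C_comp, mul_sub, ← C_mul]
    rw [Finset.prod_congr rfl fun i _ => e1 i, Finset.prod_mul_distrib, Finset.prod_const,
      Finset.card_univ, Fintype.card_fin, C_pow]
  have h3 : (mono f).comp (C a * X) = (∏ i, (X - C (a * x i))).comp (C a * X) := by
    rw [h1, h2, h, ← mul_assoc, ← C_mul, ← pow_succ]
    congr 3
    omega
  have h4 : ∀ p : M[X], (p.comp (C a * X)).comp (C a⁻¹ * X) = p := by
    intro p
    rw [comp_assoc, mul_comp, C_comp, X_comp, ← mul_assoc, ← C_mul, mul_inv_cancel₀ h0, C_1,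
      one_mul, comp_X]
  rw [← h4 (mono f), h3, h4]

/-- the resolvent with the roots `∑ ω_i W_(τ i)` -/
noncomputable def PP {B : Type} [CommRing B] {e : ℕ} (𝒢 : Subgroup (Equiv.Perm (Fin e)))
    [Fintype 𝒢] (W : Fin e → B) : (MvPolynomial (Fin e) B)[X] :=
  ∏ τ : 𝒢, (X - C (∑ i, MvPolynomial.X i *
    MvPolynomial.C (W ((τ : Equiv.Perm (Fin e)) i))))

theorem PP_monic {B : Type} [CommRing B] {e : ℕ} (𝒢 : Subgroup (Equiv.Perm (Fin e)))
    [Fintype 𝒢] (W : Fin e → B) : (PP 𝒢 W).Monic := by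
  unfold PP
  exact monic_prod_of_monic _ _ fun τ _ => monic_X_sub_C _

theorem PP_natDegree {B : Type} [CommRing B] [Nontrivial B] {e : ℕ}
    (𝒢 : Subgroup (Equiv.Perm (Fin e))) [Fintype 𝒢] (W : Fin e → B) :
    (PP 𝒢 W).natDegree = Fintype.card 𝒢 := by
  unfold PP
  rw [natDegree_prod_of_monic _ _ (fun τ _ => monic_X_sub_C _)]
  simp only [natDegree_X_sub_C]
  rw [Finset.sum_const, Finset.card_univ]
  simp

theorem PP_map {B N : Type} [CommRing B] [CommRing N] {e : ℕ}
    (𝒢 : Subgroup (Equiv.Perm (Fin e))) [Fintype 𝒢] (W : Fin e → B) (g : B →+* N) :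
    (PP 𝒢 W).map (MvPolynomial.map g) = PP 𝒢 (fun i => g (W i)) := by
  unfold PP
  rw [Polynomial.map_prod]
  refine Finset.prod_congr rfl fun τ _ => ?_
  rw [Polynomial.map_sub, map_X, map_C, map_sum]
  congr 2
  refine Finset.sum_congr rfl fun i _ => ?_
  rw [map_mul, MvPolynomial.map_X, MvPolynomial.map_C]

theorem PP_perm {B : Type} [CommRing B] {e : ℕ} (𝒢 : Subgroup (Equiv.Perm (Fin e)))
    [Fintype 𝒢] (W : Fin e → B) (σ : Equiv.Perm (Fin e)) (hσ : σ ∈ 𝒢) :
    PP 𝒢 (fun i => W (σ i)) = PP 𝒢 W := by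
  unfold PP
  exact Equiv.prod_comp (Equiv.mulLeft (⟨σ, hσ⟩ : 𝒢)) (fun τ : 𝒢 =>
    (X - C (∑ i, MvPolynomial.X i * MvPolynomial.C (W ((τ : Equiv.Perm (Fin e)) i))) :
      (MvPolynomial (Fin e) B)[X]))

theorem PP_ev {B N : Type} [CommRing B] [CommRing N] {e : ℕ}
    (𝒢 : Subgroup (Equiv.Perm (Fin e))) [Fintype 𝒢] (W : Fin e → B) (g : B →+* N)
    (ω : Fin e → N) :
    (PP 𝒢 W).map (MvPolynomial.eval₂Hom g ω) =
      ∏ τ : 𝒢, (X - C (∑ i, ω i * g (W ((τ : Equiv.Perm (Fin e)) i)))) := by
  unfold PP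
  rw [Polynomial.map_prod]
  refine Finset.prod_congr rfl fun τ _ => ?_
  rw [Polynomial.map_sub, map_X, map_C, map_sum]
  congr 2
  refine Finset.sum_congr rfl fun i _ => ?_
  rw [map_mul, MvPolynomial.eval₂Hom_X', MvPolynomial.eval₂Hom_C]

theorem res_ex (A : Type) [CommRing A] [IsDomain A] [IsIntegrallyClosed A] [CharZero A] (e : ℕ)
    (h : Fin (e + 1) → A) (𝒢 : Subgroup (Equiv.Perm (Fin e))) [Fintype 𝒢]
    (x : Fin e → AlgebraicClosure (FractionRing A))
    (hx : Roots (algebraMap (FractionRing A) (AlgebraicClosure (FractionRing A)))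
      (fun i => algebraMap A (FractionRing A) (h i)) x)
    (hτ : ∀ τ : AlgebraicClosure (FractionRing A) ≃ₐ[FractionRing A]
      AlgebraicClosure (FractionRing A), ∃ σ ∈ 𝒢, ∀ i, τ (x i) = x (σ i)) :
    ∃ R : Fin (Fintype.card 𝒢) → MvPolynomial (Fin e) A, ∀ (M : Type) [Field M] [IsAlgClosed M]
      (θ : A →+* M), ∃ W : Fin e → M, mono (fun i => θ (h i)) = ∏ i, (X - C (W i)) ∧
        ∀ ω : Fin e → M, X ^ (Fintype.card 𝒢) +
          ∑ i : Fin (Fintype.card 𝒢), C (MvPolynomial.eval₂ θ ω (R i)) * X ^ (i : ℕ) =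
          ∏ τ : 𝒢, (X - C (∑ i, ω i * W ((τ : Equiv.Perm (Fin e)) i))) := by
  obtain ⟨hx0, hxi, hxp⟩ := hx
  obtain ⟨W0, hW0⟩ : ∃ W0 : Fin e → AlgebraicClosure (FractionRing A), W0 = fun i =>
    algebraMap A (AlgebraicClosure (FractionRing A)) (h (Fin.last e)) * x i := ⟨_, rfl⟩
  have htow : ∀ a : A, algebraMap (FractionRing A) (AlgebraicClosure (FractionRing A))
      (algebraMap A (FractionRing A) a) = algebraMap A (AlgebraicClosure (FractionRing A)) a :=
    fun a => (IsScalarTower.algebraMap_apply A (FractionRing A)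
      (AlgebraicClosure (FractionRing A)) a).symm
  have hinj0 : Function.Injective (algebraMap A (AlgebraicClosure (FractionRing A))) := by
    intro a b hab
    rw [← htow, ← htow] at hab
    exact IsFractionRing.injective A (FractionRing A) ((algebraMap (FractionRing A)
      (AlgebraicClosure (FractionRing A))).injective hab)
  have hmono : (mono h).map (algebraMap A (AlgebraicClosure (FractionRing A))) =
      ∏ i, (X - C (W0 i)) := by
    rw [mono_map, hW0]
    refine mono_of_pol (fun i => algebraMap A (AlgebraicClosure (FractionRing A)) (h i)) x ?_ ?_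
    · intro h1
      apply hx0
      have h2 : h (Fin.last e) = 0 := hinj0 (by rw [map_zero]; exact h1)
      beta_reduce
      rw [h2, map_zero]
    · rw [pol_map] at hxp
      simp only [htow] at hxp
      exact hxp
  have hmon : (mono h).Monic := by
    refine Polynomial.monic_of_injective hinj0 ?_
    rw [hmono]
    exact monic_prod_of_monic _ _ fun τ _ => monic_X_sub_C _
  have hint : ∀ i, IsIntegral A (W0 i) := by
    intro i
    refine ⟨mono h, hmon, ?_⟩
    rw [← eval_map, hmono, eval_prod]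
    exact Finset.prod_eq_zero (Finset.mem_univ i) (by simp)
  obtain ⟨W, hW⟩ : ∃ W : Fin e → integralClosure A (AlgebraicClosure (FractionRing A)),
      W = fun i => ⟨W0 i, hint i⟩ := ⟨_, rfl⟩
  obtain ⟨ι, hι⟩ : ∃ ι : integralClosure A (AlgebraicClosure (FractionRing A)) →+*
      AlgebraicClosure (FractionRing A), ι = (integralClosure A
        (AlgebraicClosure (FractionRing A))).val.toRingHom := ⟨_, rfl⟩
  have hιv : ∀ b, ι b = (b : AlgebraicClosure (FractionRing A)) := by
    intro b
    rw [hι]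
    rfl
  have hιW : ∀ i, ι (W i) = W0 i := by
    intro i
    rw [hιv, hW]
  have hιi : Function.Injective ι := by
    intro a b hab
    rw [hιv, hιv] at hab
    exact Subtype.ext hab
  -- the coefficients are fixed
  have hfix : ∀ j μ (τ' : AlgebraicClosure (FractionRing A) ≃ₐ[FractionRing A]
      AlgebraicClosure (FractionRing A)),
      τ' (ι (MvPolynomial.coeff μ ((PP 𝒢 W).coeff j))) =
        ι (MvPolynomial.coeff μ ((PP 𝒢 W).coeff j)) := by
    intro j μ τ'
    obtain ⟨σ, hσ, hσx⟩ := hτ τ'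
    have h1 : (PP 𝒢 W).map (MvPolynomial.map ((τ' : AlgebraicClosure (FractionRing A) →+*
        AlgebraicClosure (FractionRing A)).comp ι)) = (PP 𝒢 W).map (MvPolynomial.map ι) := by
      rw [PP_map, PP_map]
      have h2 : (fun i => ((τ' : AlgebraicClosure (FractionRing A) →+*
          AlgebraicClosure (FractionRing A)).comp ι) (W i)) = fun i => ι (W (σ i)) := by
        funext i
        show τ' (ι (W i)) = ι (W (σ i))
        rw [hιW, hιW, hW0]
        simp only []
        rw [map_mul, hσx, ← htow, τ'.commutes]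
      rw [h2]
      exact PP_perm 𝒢 (fun i => ι (W i)) σ hσ
    have h3 := congrArg (fun p => MvPolynomial.coeff μ (Polynomial.coeff p j)) h1
    simp only [Polynomial.coeff_map, MvPolynomial.coeff_map] at h3
    exact h3
  have hA : ∀ j μ, ∃ a : A,
      algebraMap A (integralClosure A (AlgebraicClosure (FractionRing A))) a =
        MvPolynomial.coeff μ ((PP 𝒢 W).coeff j) := by
    intro j μ
    obtain ⟨a, ha⟩ := fixed_ex A (ι (MvPolynomial.coeff μ ((PP 𝒢 W).coeff j)))
      (by rw [hιv]; exact (MvPolynomial.coeff μ ((PP 𝒢 W).coeff j)).2) (hfix j μ)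
    refine ⟨a, hιi ?_⟩
    rw [← ha, hιv]
    rfl
  choose a ha using hA
  refine ⟨fun j => ∑ μ ∈ ((PP 𝒢 W).coeff j).support, MvPolynomial.monomial μ (a j μ), ?_⟩
  have hR : ∀ j : ℕ, MvPolynomial.map
      (algebraMap A (integralClosure A (AlgebraicClosure (FractionRing A))))
      (∑ μ ∈ ((PP 𝒢 W).coeff j).support, MvPolynomial.monomial μ (a j μ)) =
      (PP 𝒢 W).coeff j := by
    intro j
    rw [map_sum]
    simp only [MvPolynomial.map_monomial, ha]
    exact ((PP 𝒢 W).coeff j).support_sum_monomial_coeff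
  intro M _ _ θ
  have hinjB : Function.Injective (algebraMap A
      (integralClosure A (AlgebraicClosure (FractionRing A)))) := by
    intro a b hab
    apply hinj0
    exact congrArg Subtype.val hab
  obtain ⟨Ψ, hΨ⟩ := ext_ex A (integralClosure A (AlgebraicClosure (FractionRing A))) M hinjB θ
  refine ⟨fun i => Ψ (W i), ?_, ?_⟩
  · have h1 : (mono h).map (algebraMap A
        (integralClosure A (AlgebraicClosure (FractionRing A)))) = ∏ i, (X - C (W i)) := by
      apply Polynomial.map_injective ι hιi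
      rw [Polynomial.map_map, Polynomial.map_prod]
      have h2 : ι.comp (algebraMap A (integralClosure A (AlgebraicClosure (FractionRing A)))) =
          algebraMap A (AlgebraicClosure (FractionRing A)) := by
        rw [hι]
        rfl
      rw [h2, hmono]
      refine Finset.prod_congr rfl fun i _ => ?_
      rw [Polynomial.map_sub, map_X, map_C, hιW]
    have h3 := congrArg (Polynomial.map Ψ) h1
    rw [Polynomial.map_map, Polynomial.map_prod, mono_map] at h3
    have h4 : (fun i => (Ψ.comp (algebraMap A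
        (integralClosure A (AlgebraicClosure (FractionRing A))))) (h i)) = fun i => θ (h i) := by
      funext i
      exact hΨ (h i)
    rw [h4] at h3
    rw [h3]
    refine Finset.prod_congr rfl fun i _ => ?_
    rw [Polynomial.map_sub, map_X, map_C]
  · intro ω
    rw [← PP_ev]
    have hm : ((PP 𝒢 W).map (MvPolynomial.eval₂Hom Ψ ω)).Monic := (PP_monic 𝒢 W).map _
    have hd : ((PP 𝒢 W).map (MvPolynomial.eval₂Hom Ψ ω)).natDegree = Fintype.card 𝒢 := by
      rw [(PP_monic 𝒢 W).natDegree_map, PP_natDegree]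
    rw [hm.as_sum, hd]
    congr 1
    rw [← Fin.sum_univ_eq_sum_range (fun i => C (((PP 𝒢 W).map
      (MvPolynomial.eval₂Hom Ψ ω)).coeff i) * X ^ i) (Fintype.card 𝒢)]
    refine Finset.sum_congr rfl fun j _ => ?_
    congr 2
    rw [coeff_map, ← hR, MvPolynomial.coe_eval₂Hom, MvPolynomial.eval₂_map]
    congr 1
    refine RingHom.ext fun b => ?_
    exact (hΨ b).symm

theorem main : S_EXR := by
  intro K _ _ k e h 𝒢 _ x hx hτ
  have hicl : IsIntegrallyClosed (MvPolynomial (Fin k) (𝓞 K)) := icl k (𝓞 K)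
  obtain ⟨R, hR⟩ := res_ex (MvPolynomial (Fin k) (𝓞 K)) e h 𝒢 x hx hτ
  refine ⟨⟨1, one_ne_zero, fun j => MvPolynomial.eval₂Hom
    (MvPolynomial.rename Sum.inl : MvPolynomial (Fin k) (𝓞 K) →ₐ[𝓞 K] _).toRingHom
    (fun i => MvPolynomial.X (Sum.inr i)) (R j), ?_⟩⟩
  intro M _ _ φ t
  obtain ⟨W, hW1, hW2⟩ := hR M (MvPolynomial.eval₂Hom φ t)
  refine ⟨W, hW1, fun ω => ?_⟩
  have h1 : ∀ q : MvPolynomial (Fin e) (MvPolynomial (Fin k) (𝓞 K)),
      MvPolynomial.eval₂ φ (Sum.elim t ω) (MvPolynomial.eval₂Hom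
        (MvPolynomial.rename Sum.inl : MvPolynomial (Fin k) (𝓞 K) →ₐ[𝓞 K] _).toRingHom
        (fun i => MvPolynomial.X (Sum.inr i)) q) =
      MvPolynomial.eval₂ (MvPolynomial.eval₂Hom φ t) ω q := by
    intro q
    have h2 : (MvPolynomial.eval₂Hom φ (Sum.elim t ω)).comp (MvPolynomial.eval₂Hom
        (MvPolynomial.rename Sum.inl : MvPolynomial (Fin k) (𝓞 K) →ₐ[𝓞 K]
          MvPolynomial (Fin k ⊕ Fin e) (𝓞 K)).toRingHom
        (fun i => MvPolynomial.X (Sum.inr i))) =
        MvPolynomial.eval₂Hom (MvPolynomial.eval₂Hom φ t) ω := by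
      apply MvPolynomial.ringHom_ext
      · intro p
        rw [RingHom.comp_apply, MvPolynomial.eval₂Hom_C, MvPolynomial.eval₂Hom_C]
        show MvPolynomial.eval₂Hom φ (Sum.elim t ω) (MvPolynomial.rename Sum.inl p) = _
        rw [MvPolynomial.coe_eval₂Hom, MvPolynomial.eval₂_rename]
        rfl
      · intro i
        rw [RingHom.comp_apply, MvPolynomial.eval₂Hom_X', MvPolynomial.eval₂Hom_X',
          MvPolynomial.eval₂Hom_X']
        rfl
    exact congrArg (fun g : MvPolynomial (Fin e) (MvPolynomial (Fin k) (𝓞 K)) →+* M => g q) h2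
  unfold rg
  simp only [h1, Nat.cast_one, one_mul]
  exact hW2 ω

end Pool.Agent.N441.HG
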